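import Mathlib

/-!
# Generic cuspidal representations over function fields: data and known facts
-/

namespace Pool.Agent.N522.GR

/-- Quasi-split groups over global function fields and their generic cuspidal representations. -/
structure Theory where
  /-- global function fields -/
  Fld : Type
  /-- quasi-split connected reductive groups over `k` -/
  Grp : Fld → Type
  /-- globally generic cuspidal automorphic representations with unitary central character -/
  Rep : ∀ {k : Fld}, Grp k → Type
  /-- all local components are tempered and all unramified Satake parameters have absolute value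
  one -/
  Tempered : ∀ {k : Fld} {G : Grp k}, Rep G → Prop
  /-- absolutely almost simple and simply connected groups -/
  Simple : ∀ {k : Fld}, Grp k → Prop
  /-- the simply connected cover of the derived group -/
  sc : ∀ {k : Fld}, Grp k → Grp k
  /-- `π'` on `G_sc(𝔸)` is an irreducible constituent of the pull-back of `π` on `G(𝔸)` -/
  Lies : ∀ {k : Fld} {G : Grp k}, Rep (sc G) → Rep G → Prop
  /-- for simply connected `G`: the simple factors `Res_{l/k} H`, as pairs of a finite extension and
  a simple group over it -/
  factors : ∀ {k : Fld}, Grp k → List (Σ l : Fld, Grp l)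
  /-- the component of a representation of `G_sc` at a simple factor, as a representation of
  `H(𝔸_l) = (Res_{l/k} H)(𝔸_k)` -/
  comp : ∀ {k : Fld} {G : Grp k}, Rep (sc G) → ∀ i : Fin (factors (sc G)).length,
    Rep ((factors (sc G)).get i).2

variable {T : Theory}

/-- Q1 for the group `G` -/
def Q1For {k : T.Fld} (G : T.Grp k) : Prop := ∀ π : T.Rep G, T.Tempered π

/-- Q1 -/
def Q1 (T : Theory) : Prop := ∀ (k : T.Fld) (G : T.Grp k), Q1For G

/-- Q1 for absolutely almost simple simply connected groups -/
def Q1Simple (T : Theory) : Prop := ∀ (k : T.Fld) (G : T.Grp k), T.Simple G → Q1For G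

/-- Known facts. -/
structure Facts (T : Theory) : Prop where
  /-- The functions in the space of `π` restricted to `G_sc(𝔸)` are cusp forms, and some constituent
  is globally generic (after conjugation, the Whittaker coefficient at the identity is non-zero). -/
  restrict : ∀ (k : T.Fld) (G : T.Grp k) (π : T.Rep G), ∃ π' : T.Rep (T.sc G), T.Lies π' π
  /-- Temperedness of `π_v` is equivalent to that of the constituents of its restriction to
  `G_sc(k_v)`, and these are conjugate under `G(k_v)`; Satake parameters correspond under
  `Ĝ → Ĝ_sc`. -/
  tempered_iff : ∀ (k : T.Fld) (G : T.Grp k) (π : T.Rep G) (π' : T.Rep (T.sc G)), T.Lies π' π →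
    T.Tempered π' → T.Tempered π
  /-- the simple factors are simple, simply connected and quasi-split -/
  simple : ∀ (k : T.Fld) (G : T.Grp k), ∀ H ∈ T.factors (T.sc G), T.Simple H.2
  /-- products and restriction of scalars -/
  factor : ∀ (k : T.Fld) (G : T.Grp k) (π' : T.Rep (T.sc G)),
    (∀ i, T.Tempered (T.comp π' i)) → T.Tempered π'

/-- For one group. -/
theorem q1For_of_factors (F : Facts T) {k : T.Fld} (G : T.Grp k)
    (h : ∀ H ∈ T.factors (T.sc G), Q1For H.2) : Q1For G := by
  intro π
  obtain ⟨π', hπ'⟩ := F.restrict k G π
  exact F.tempered_iff k G π π' hπ' (F.factor k G π' fun i => h _ (List.get_mem _ i) _)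

theorem q1_iff (F : Facts T) : Q1 T ↔ Q1Simple T :=
  ⟨fun h k G _ => h k G, fun h _ G => q1For_of_factors F G fun H hH =>
    h H.1 H.2 (F.simple _ G H hH)⟩

end Pool.Agent.N522.GR
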